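import Mathlib.Computability.RecursiveIn
import Pool.Agent.helper72.EMG.Fa

/-!
# One instance of the Erdős–Moser principle does not uniformly compute a 1-generic real

There is a real `P` such that, for every real `X` which computes `P` and for every tournament `T`
computable in `X`, no functional computable in `X` maps all infinite `T`-transitive sets to reals
that are 1-generic relative to `X`.
-/

namespace Pool.Agent.Results.MP_7873ca_lc.FixedInstance

/-- the initial segment of length `n` of the real `g` -/
def initialSegment (g : ℕ → Bool) (n : ℕ) : List Bool := (List.range n).map g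

/-- the real `g` meets the set `D` of strings: some initial segment of `g` is in `D` -/
def Meets (g : ℕ → Bool) (D : Set (List Bool)) : Prop := ∃ n, initialSegment g n ∈ D

/-- the real `g` avoids the set `D` of strings: some initial segment of `g` has no extension in
`D` -/
def Avoids (g : ℕ → Bool) (D : Set (List Bool)) : Prop :=
  ∃ n, ∀ τ, initialSegment g n <+: τ → τ ∉ D

/-- the oracle given by the real `X`: its characteristic function -/
def oracle (X : ℕ → Bool) : Set (ℕ →. ℕ) := {fun n => Part.some (cond (X n) 1 0)}

/-- the real `P` is computable in the real `X` -/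
def TuringLE (P X : ℕ → Bool) : Prop :=
  Nat.RecursiveIn (oracle X) fun n => Part.some (cond (P n) 1 0)

/-- the set `D` of strings is `Σ⁰₁` relative to `X`: it is the domain of a function which is
recursive in `X` -/
def SigmaOneIn (X : ℕ → Bool) (D : Set (List Bool)) : Prop :=
  ∃ f : List Bool →. ℕ, RecursiveIn (oracle X) f ∧ ∀ σ, σ ∈ D ↔ (f σ).Dom

/-- the real `g` is 1-generic relative to the real `X` -/
def OneGeneric (X g : ℕ → Bool) : Prop :=
  ∀ D : Set (List Bool), SigmaOneIn X D → Meets g D ∨ Avoids g D

/-- `T` (with `T x y = true` for an arrow from `x` to `y`) is a tournament on `ℕ` -/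
def IsTournament (T : ℕ → ℕ → Bool) : Prop :=
  (∀ x, T x x = false) ∧ ∀ x y, x ≠ y → T x y = !T y x

/-- `H` is an infinite set which is transitive for `T` -/
def IsSolution (T : ℕ → ℕ → Bool) (H : ℕ → Bool) : Prop :=
  {x | H x = true}.Infinite ∧ ∀ x y z, H x = true → H y = true → H z = true →
    T x y = true → T y z = true → T x z = true

/-- `γ` is monotone; it gives the partial functional mapping `H` to the union of the strings
`γ σ`, `σ` an initial segment of `H` -/
def IsFunctional (γ : List Bool → List Bool) : Prop := ∀ σ τ, σ <+: τ → γ σ <+: γ τ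

/-- the functional given by `γ` is total at the real `H` and its value is the real `G` -/
def Value (γ : List Bool → List Bool) (H G : ℕ → Bool) : Prop :=
  (∀ n, initialSegment G (γ (initialSegment H n)).length = γ (initialSegment H n)) ∧
    ∀ k, ∃ n, k ≤ (γ (initialSegment H n)).length

theorem result : ∃ P : ℕ → Bool, ∀ X : ℕ → Bool, TuringLE P X →
    ∀ T : ℕ → ℕ → Bool, IsTournament T → ComputableIn₂ (oracle X) T →
    ∀ γ : List Bool → List Bool, IsFunctional γ → ComputableIn (oracle X) γ →
    ∃ H, IsSolution T H ∧ ¬ ∃ G, Value γ H G ∧ OneGeneric X G := by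
  obtain ⟨P, hP⟩ := Pool.Agent.helper72.EMG.fixed_instance
  refine ⟨P, fun X hX T hT hTc γ hγ hγc => ?_⟩
  obtain ⟨H, ⟨h1, h2⟩, h3⟩ := hP X hX T hT hTc γ hγ hγc
  refine ⟨H, ⟨h1, fun x y z hx hy hz hxy hyz => h2 x hx y hy z hz hxy hyz⟩, ?_⟩
  rintro ⟨G, hG, hg⟩
  exact h3 ⟨G, hG, hg⟩

end Pool.Agent.Results.MP_7873ca_lc.FixedInstance
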